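import Pool.Agent.Lib.MP_62a15f_an.Cv.Main

/-!
In every dimension there are a symmetric convolution semigroup and a potential, bounded with
respect to the generator in `L¹`, whose form-bound is zero while the limit of the `L¹` spectral
radii exceeds one.
-/

open MeasureTheory

namespace Pool.Agent.Results.MP_62a15f_an.Convolution

open Pool.Agent.Lib.MP_62a15f_an.Cv

theorem result (d : ℕ) (hd : 1 ≤ d) :
    HasConvGap (volume : Measure (EuclideanSpace ℝ (Fin d))) :=
  main (e := EuclideanSpace.single (⟨0, hd⟩ : Fin d) (1 : ℝ)) (by simp)

end Pool.Agent.Results.MP_62a15f_an.Convolution
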